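import Pool.Agent.Lib.MP_7682a8_an.KB.Iface

/-!
NUM: the numerical inequalities, by 100 equal cells.
-/

set_option autoImplicit false

open Set MeasureTheory

namespace Pool.Agent.Lib.MP_7682a8_an.KB.H2

section defs

variable {F : Type*} [Field F]

def Xf (κ r : F) : F := κ * r / (1 - r)

def uf (κ r : F) : F := κ / (1 - r)

def Ef (X : F) : F := X ^ 2 / 2 + 11 / 24 * X ^ 4 + X ^ 5 / 2 + X ^ 6 / 2

/-- upper bound of the bracket on the cell `[p, q]` -/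
def Bf (κ R p q : F) : F :=
  4 + 8 * Xf κ q + 5 * uf κ q ^ 2 * R ^ 2 - 9 * Xf κ p ^ 2 +
    8 * Xf κ q ^ 2 * (q ^ 2 / R ^ 2) +
    5 * R ^ 2 * (2 * uf κ q ^ 3 * q + 25 / 12 * uf κ q ^ 4 * q ^ 2 +
      12 / 5 * uf κ q ^ 5 * q ^ 3) - (22 / 3 * Xf κ p ^ 3 + 19 / 4 * Xf κ p ^ 4)

def Mf (κ R p q : F) : F := (1 - p ^ 2 / R ^ 2) / 8 * Bf κ R p q

def Df (κ R p q : F) : F := 1 - q ^ 2 - 4 * q * Mf κ R p q

def Hf (κ R p q : F) : F :=
  q + 2 * Ef (Xf κ q) + q * (q + Ef (Xf κ q) + 2 * Mf κ R p q) ^ 2 / Df κ R p q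

end defs

/-- the true bracket in terms of `u = κ / (1 - r)` -/
theorem mb_eq {κ R r : ℝ} (hR : 0 < R) (hr : 0 < r) (hr1 : r < 1) :
    mb (κ * r / (1 - r)) (r ^ 2 / R ^ 2) = (1 - r ^ 2 / R ^ 2) / 8 *
      (4 + 8 * Xf κ r + 5 * uf κ r ^ 2 * R ^ 2 - 9 * Xf κ r ^ 2 +
        8 * Xf κ r ^ 2 * (r ^ 2 / R ^ 2) +
        5 * R ^ 2 * (2 * uf κ r ^ 3 * r + 25 / 12 * uf κ r ^ 4 * r ^ 2 +
          12 / 5 * uf κ r ^ 5 * r ^ 3) - (22 / 3 * Xf κ r ^ 3 + 19 / 4 * Xf κ r ^ 4)) := by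
  have h1 : 1 - r ≠ 0 := by linarith
  unfold mb Xf uf
  field_simp
  ring

section cell

variable {κ R p q r : ℝ}

theorem Xf_mono (hκ : 0 < κ) {a b : ℝ} (h0 : 0 ≤ a) (hab : a ≤ b) (hb : b < 1) :
    0 ≤ Xf κ a ∧ Xf κ a ≤ Xf κ b := by
  unfold Xf
  refine ⟨div_nonneg (by positivity) (by linarith), ?_⟩
  apply div_le_div₀ (by nlinarith) (by nlinarith) (by linarith) (by linarith)

theorem uf_mono (hκ : 0 < κ) {a b : ℝ} (hab : a ≤ b) (hb : b < 1) :
    0 ≤ uf κ a ∧ uf κ a ≤ uf κ b := by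
  unfold uf
  refine ⟨div_nonneg (by positivity) (by linarith), ?_⟩
  apply div_le_div₀ hκ.le le_rfl (by linarith) (by linarith)

theorem mb_bounds (hκ : 0 < κ) (hR : 0 < R) (hR1 : R < 1) (hp : 0 ≤ p) (hpr : p ≤ r)
    (hrq : r ≤ q) (hq : q ≤ R) (hr : 0 < r) :
    0 ≤ mb (κ * r / (1 - r)) (r ^ 2 / R ^ 2) ∧
    mb (κ * r / (1 - r)) (r ^ 2 / R ^ 2) ≤ Mf κ R p q := by
  have hr1 : r < 1 := by linarith
  have hq1 : q < 1 := by linarith
  have hq0 : 0 < q := by linarith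
  rw [mb_eq hR hr hr1]
  unfold Mf
  obtain ⟨hX0, hXq⟩ := Xf_mono hκ hr.le hrq hq1
  obtain ⟨hXp0, hXp⟩ := Xf_mono hκ hp hpr hr1
  obtain ⟨hu0, huq⟩ := uf_mono hκ hrq hq1
  have hXu : Xf κ r = uf κ r * r := by unfold Xf uf; ring
  set X := Xf κ r with hX
  set u := uf κ r with hu
  set Xq := Xf κ q with hXqd
  set Xp := Xf κ p with hXpd
  set uq := uf κ q with huqd
  have hs : r ^ 2 / R ^ 2 ≤ 1 := by
    rw [div_le_one (by positivity)]
    exact pow_le_pow_left₀ hr.le (by linarith) 2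
  have hs0 : 0 < r ^ 2 / R ^ 2 := by positivity
  have hps : p ^ 2 / R ^ 2 ≤ r ^ 2 / R ^ 2 := by
    apply div_le_div_of_nonneg_right _ (by positivity)
    exact pow_le_pow_left₀ hp hpr 2
  have hqs : r ^ 2 / R ^ 2 ≤ q ^ 2 / R ^ 2 := by
    apply div_le_div_of_nonneg_right _ (by positivity)
    exact pow_le_pow_left₀ hr.le hrq 2
  -- the bracket is nonnegative
  have hB0 : 0 ≤ 4 + 8 * X + 5 * u ^ 2 * R ^ 2 - 9 * X ^ 2 + 8 * X ^ 2 * (r ^ 2 / R ^ 2) +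
        5 * R ^ 2 * (2 * u ^ 3 * r + 25 / 12 * u ^ 4 * r ^ 2 +
          12 / 5 * u ^ 5 * r ^ 3) - (22 / 3 * X ^ 3 + 19 / 4 * X ^ 4) := by
    have hr2 : r ^ 2 ≤ R ^ 2 := pow_le_pow_left₀ hr.le (by linarith) 2
    have e1 : 0 ≤ 5 * u ^ 2 * R ^ 2 - 9 * X ^ 2 + 8 * X ^ 2 * (r ^ 2 / R ^ 2) := by
      have e2 : 5 * u ^ 2 * R ^ 2 - 9 * X ^ 2 + 8 * X ^ 2 * (r ^ 2 / R ^ 2) =
          u ^ 2 * R ^ 2 * (5 - 9 * (r ^ 2 / R ^ 2) + 8 * (r ^ 2 / R ^ 2) ^ 2) := by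
        rw [hXu]
        field_simp
      rw [e2]
      have e3 : 0 ≤ 5 - 9 * (r ^ 2 / R ^ 2) + 8 * (r ^ 2 / R ^ 2) ^ 2 := by
        nlinarith [sq_nonneg (16 * (r ^ 2 / R ^ 2) - 9)]
      positivity
    have e4 : 22 / 3 * X ^ 3 ≤ 5 * R ^ 2 * (2 * u ^ 3 * r) := by
      rw [hXu]
      have : 0 ≤ u ^ 3 * r := by positivity
      nlinarith [mul_le_mul_of_nonneg_left hr2 this]
    have e5 : 19 / 4 * X ^ 4 ≤ 5 * R ^ 2 * (25 / 12 * u ^ 4 * r ^ 2) := by
      rw [hXu]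
      have : 0 ≤ u ^ 4 * r ^ 2 := by positivity
      nlinarith [mul_le_mul_of_nonneg_left hr2 this]
    have e6 : 0 ≤ 5 * R ^ 2 * (12 / 5 * u ^ 5 * r ^ 3) := by positivity
    nlinarith
  -- the bracket is at most `Bf`
  have hB1 : 4 + 8 * X + 5 * u ^ 2 * R ^ 2 - 9 * X ^ 2 + 8 * X ^ 2 * (r ^ 2 / R ^ 2) +
        5 * R ^ 2 * (2 * u ^ 3 * r + 25 / 12 * u ^ 4 * r ^ 2 +
          12 / 5 * u ^ 5 * r ^ 3) - (22 / 3 * X ^ 3 + 19 / 4 * X ^ 4) ≤ Bf κ R p q := by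
    unfold Bf
    rw [← hXqd, ← hXpd, ← huqd]
    have huq0 : 0 ≤ uq := hu0.trans huq
    have hXq0 : 0 ≤ Xq := hX0.trans hXq
    have f1 : 5 * u ^ 2 * R ^ 2 ≤ 5 * uq ^ 2 * R ^ 2 := by gcongr
    have f2 : Xp ^ 2 ≤ X ^ 2 := by gcongr
    have f3 : 8 * X ^ 2 * (r ^ 2 / R ^ 2) ≤ 8 * Xq ^ 2 * (q ^ 2 / R ^ 2) := by gcongr
    have f4 : 5 * R ^ 2 * (2 * u ^ 3 * r + 25 / 12 * u ^ 4 * r ^ 2 + 12 / 5 * u ^ 5 * r ^ 3) ≤
        5 * R ^ 2 * (2 * uq ^ 3 * q + 25 / 12 * uq ^ 4 * q ^ 2 + 12 / 5 * uq ^ 5 * q ^ 3) := by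
      gcongr
    have f5 : Xp ^ 3 ≤ X ^ 3 := by gcongr
    have f6 : Xp ^ 4 ≤ X ^ 4 := by gcongr
    linarith
  refine ⟨mul_nonneg (by linarith) hB0, ?_⟩
  apply mul_le_mul (by linarith) hB1 hB0 (by linarith)

theorem cell (hκ : 0 < κ) (hR : 0 < R) (hR1 : R < 1) (hp : 0 ≤ p) (hpr : p ≤ r)
    (hrq : r ≤ q) (hq : q ≤ R) (hr : 0 < r) (hD : 0 < Df κ R p q) :
    0 < 1 - r ^ 2 - 4 * r * mb (κ * r / (1 - r)) (r ^ 2 / R ^ 2) ∧
    eb r (κ * r / (1 - r)) (r ^ 2 / R ^ 2) / r ≤ Hf κ R p q := by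
  obtain ⟨hm0, hm1⟩ := mb_bounds hκ hR hR1 hp hpr hrq hq hr
  have hq1 : q < 1 := by linarith
  have hq0 : 0 < q := by linarith
  obtain ⟨hX0, hXq⟩ := Xf_mono hκ hr.le hrq hq1
  set m := mb (κ * r / (1 - r)) (r ^ 2 / R ^ 2) with hm
  set M := Mf κ R p q with hM
  have hE : epsb (κ * r / (1 - r)) ≤ Ef (Xf κ q) := by
    unfold epsb Ef
    have : κ * r / (1 - r) = Xf κ r := rfl
    rw [this]
    gcongr
  have hE0 : 0 ≤ epsb (κ * r / (1 - r)) := by
    unfold epsb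
    have : κ * r / (1 - r) = Xf κ r := rfl
    rw [this]
    positivity
  have hden : Df κ R p q ≤ 1 - r ^ 2 - 4 * r * m := by
    unfold Df
    rw [← hM]
    have h1 : r ^ 2 ≤ q ^ 2 := by gcongr
    have h2 : r * m ≤ q * M := mul_le_mul hrq hm1 hm0 hq0.le
    linarith
  refine ⟨lt_of_lt_of_le hD hden, ?_⟩
  have hden' : 0 < 1 - r ^ 2 - 4 * r * m := lt_of_lt_of_le hD hden
  have he : eb r (κ * r / (1 - r)) (r ^ 2 / R ^ 2) / r =
      r + 2 * epsb (κ * r / (1 - r)) +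
        r * (r + epsb (κ * r / (1 - r)) + 2 * m) ^ 2 / (1 - r ^ 2 - 4 * r * m) := by
    unfold eb
    rw [← hm]
    field_simp
  rw [he]
  unfold Hf
  rw [← hM]
  set E := epsb (κ * r / (1 - r)) with hEd
  have h1 : r * (r + E + 2 * m) ^ 2 / (1 - r ^ 2 - 4 * r * m) ≤
      q * (q + Ef (Xf κ q) + 2 * M) ^ 2 / Df κ R p q := by
    apply div_le_div₀ _ _ hD hden
    · positivity
    · apply mul_le_mul hrq _ (by positivity) hq0.le
      apply pow_le_pow_left₀ (by positivity)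
      linarith
  linarith

end cell

/-! ### rational evaluation -/

/-- rounding up to a multiple of `10⁻⁶` -/
def up (x : ℚ) : ℚ := ((x.num * 1000000 / (x.den : ℤ) + 1 : ℤ) : ℚ) / 1000000

theorem le_up (x : ℚ) : x ≤ up x := by
  unfold up
  rw [le_div_iff₀ (by norm_num)]
  have hd : (0 : ℤ) < x.den := by exact_mod_cast x.den_pos
  have h1 : x.num * 1000000 < (x.num * 1000000 / (x.den : ℤ) + 1) * x.den :=
    Int.lt_ediv_add_one_mul_self _ hd
  have hdQ : (0 : ℚ) < x.den := by exact_mod_cast x.den_pos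
  have h2 : (x.num : ℚ) = x * x.den := (Rat.mul_den_eq_num x).symm
  have h3 : ((x.num * 1000000 : ℤ) : ℚ) < ((x.num * 1000000 / (x.den : ℤ) + 1 : ℤ) : ℚ) * x.den := by
    exact_mod_cast h1
  push_cast at h3 ⊢
  rw [h2] at h3
  have h4 : x * 1000000 * (x.den : ℚ) < (((x.num * 1000000 / (x.den : ℤ) : ℤ) : ℚ) + 1) * x.den := by
    linarith
  exact (lt_of_mul_lt_mul_right h4 hdQ.le).le

/-- the bound on the `i`-th of 100 cells -/
def cst (κ R : ℚ) (i : ℕ) : ℚ := up (Hf κ R (R * i / 100) (R * (i + 1) / 100))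

def S (κ R : ℚ) : ℕ → ℚ
  | 0 => 0
  | k + 1 => S κ R k + cst κ R k

theorem S_eq (κ R : ℚ) (n : ℕ) : S κ R n = ∑ i ∈ Finset.range n, cst κ R i := by
  induction n with
  | zero => rfl
  | succ n ih => rw [S, Finset.sum_range_succ, ih]

theorem Hf_cast (κ R p q : ℚ) : ((Hf κ R p q : ℚ) : ℝ) = Hf (κ : ℝ) R p q := by
  simp only [Hf, Df, Mf, Bf, Ef, Xf, uf]
  push_cast
  rfl

theorem Df_cast (κ R p q : ℚ) : ((Df κ R p q : ℚ) : ℝ) = Df (κ : ℝ) R p q := by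
  simp only [Df, Mf, Bf, Xf, uf]
  push_cast
  rfl

/-- continuity of the integrand -/
theorem cont {κ R x : ℝ} (hR : 0 < R) (hR1 : R < 1) (hx : 0 < x)
    (hden : ∀ r : ℝ, 0 < r → r ≤ R →
      0 < 1 - r ^ 2 - 4 * r * mb (κ * r / (1 - r)) (r ^ 2 / R ^ 2)) :
    ContinuousOn (fun r => eb r (κ * r / (1 - r)) (r ^ 2 / R ^ 2) / r) (Icc x R) := by
  have hX : ContinuousOn (fun r : ℝ => κ * r / (1 - r)) (Icc x R) := by
    apply ContinuousOn.div (by fun_prop) (by fun_prop)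
    intro r hr
    have := hr.2
    linarith
  have hs : ContinuousOn (fun r : ℝ => r ^ 2 / R ^ 2) (Icc x R) := by fun_prop
  have hv : ContinuousOn (fun r : ℝ => 5 / (r ^ 2 / R ^ 2)) (Icc x R) := by
    apply ContinuousOn.div continuousOn_const hs
    intro r hr
    have h1 : 0 < r := lt_of_lt_of_le hx hr.1
    positivity
  have aux : ∀ X s v : ℝ → ℝ, ContinuousOn X (Icc x R) → ContinuousOn s (Icc x R) →
      ContinuousOn v (Icc x R) → ContinuousOn (fun r => (1 - s r) / 8 * (4 + 8 * X r +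
        (v r - 9 + 8 * s r) * X r ^ 2 + v r * (2 * X r ^ 3 + 25 / 12 * X r ^ 4 +
        12 / 5 * X r ^ 5) - (22 / 3 * X r ^ 3 + 19 / 4 * X r ^ 4))) (Icc x R) := by
    intro X s v h1 h2 h3
    fun_prop
  have hm : ContinuousOn (fun r : ℝ => mb (κ * r / (1 - r)) (r ^ 2 / R ^ 2)) (Icc x R) :=
    aux _ _ _ hX hs hv
  have aux2 : ∀ X : ℝ → ℝ, ContinuousOn X (Icc x R) → ContinuousOn (fun r => X r ^ 2 / 2 +
      11 / 24 * X r ^ 4 + X r ^ 5 / 2 + X r ^ 6 / 2) (Icc x R) := by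
    intro X h1
    fun_prop
  have he : ContinuousOn (fun r : ℝ => epsb (κ * r / (1 - r))) (Icc x R) := aux2 _ hX
  have aux3 : ∀ m e : ℝ → ℝ, ContinuousOn m (Icc x R) → ContinuousOn e (Icc x R) →
      (∀ r ∈ Icc x R, 1 - r ^ 2 - 4 * r * m r ≠ 0) → ContinuousOn (fun r => (r ^ 2 +
        2 * r * e r + (r ^ 2 + r * e r + 2 * r * m r) ^ 2 / (1 - r ^ 2 - 4 * r * m r)) / r)
        (Icc x R) := by
    intro m e h1 h2 h3
    apply ContinuousOn.div _ continuousOn_id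
    · intro r hr
      exact (lt_of_lt_of_le hx hr.1).ne'
    · apply ContinuousOn.add (by fun_prop)
      exact ContinuousOn.div (by fun_prop) (by fun_prop) h3
  exact aux3 _ _ hm he fun r hr => (hden r (lt_of_lt_of_le hx hr.1) hr.2).ne'

theorem good_of (κ R L : ℚ) (hκ : 0 < κ) (hR : 0 < R) (hR1 : R < 1)
    (hX : κ * R / (1 - R) ≤ 18 / 25)
    (hD : ∀ i : ℕ, i < 100 → 0 < Df κ R (R * (i : ℚ) / 100) (R * ((i : ℚ) + 1) / 100))
    (hc : ∀ i : ℕ, i < 100 → 0 ≤ cst κ R i)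
    (hS : S κ R 100 * (R / 100) ≤ L) : Good (κ : ℝ) R L := by
  have hκ' : (0 : ℝ) < κ := by exact_mod_cast hκ
  have hR' : (0 : ℝ) < R := by exact_mod_cast hR
  have hR1' : (R : ℝ) < 1 := by exact_mod_cast hR1
  have hD' : ∀ i : ℕ, i < 100 → 0 < Df (κ : ℝ) R (R * i / 100) (R * (i + 1) / 100) := by
    intro i hi
    have h1 := hD i hi
    have h2 : ((0 : ℚ) : ℝ) < ((Df κ R (R * i / 100) (R * (i + 1) / 100) : ℚ) : ℝ) :=
      Rat.cast_lt.2 h1
    rw [Df_cast] at h2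
    push_cast at h2
    exact h2
  have hH : ∀ i : ℕ, Hf (κ : ℝ) R (R * i / 100) (R * (i + 1) / 100) ≤ cst κ R i := by
    intro i
    have h1 : Hf κ R (R * i / 100) (R * (i + 1) / 100) ≤ cst κ R i := le_up _
    have h2 : ((Hf κ R (R * i / 100) (R * (i + 1) / 100) : ℚ) : ℝ) ≤ (cst κ R i : ℝ) :=
      Rat.cast_le.2 h1
    rw [Hf_cast] at h2
    push_cast at h2
    exact h2
  have hcell : ∀ i : ℕ, i < 100 → ∀ r : ℝ, 0 < r → (R : ℝ) * i / 100 ≤ r →
      r ≤ R * (i + 1) / 100 →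
      0 < 1 - r ^ 2 - 4 * r * mb (κ * r / (1 - r)) (r ^ 2 / (R : ℝ) ^ 2) ∧
      eb r (κ * r / (1 - r)) (r ^ 2 / (R : ℝ) ^ 2) / r ≤ cst κ R i := by
    intro i hi r hr h1 h2
    have hi' : (i : ℝ) + 1 ≤ 100 := by exact_mod_cast hi
    obtain ⟨h3, h4⟩ := cell hκ' hR' hR1' (p := (R : ℝ) * i / 100) (q := R * (i + 1) / 100)
      (by positivity) h1 h2 (by nlinarith) hr (hD' i hi)
    exact ⟨h3, h4.trans (hH i)⟩
  have hden : ∀ r : ℝ, 0 < r → r ≤ R →
      0 < 1 - r ^ 2 - 4 * r * mb (κ * r / (1 - r)) (r ^ 2 / (R : ℝ) ^ 2) := by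
    intro r hr hrR
    have h0 : 0 < 100 * r / R := by positivity
    have h1 : 100 * r / R ≤ 100 := by
      rw [div_le_iff₀ hR']
      linarith
    have h2 : 0 < ⌈100 * r / R⌉₊ := Nat.ceil_pos.2 h0
    have h3 : ⌈100 * r / R⌉₊ ≤ 100 := Nat.ceil_le.2 (by exact_mod_cast h1)
    obtain ⟨i, hi⟩ : ∃ i, ⌈100 * r / R⌉₊ = i + 1 := ⟨_, (Nat.succ_pred_eq_of_pos h2).symm⟩
    have h4 : 100 * r / R ≤ (i : ℝ) + 1 := by
      have := Nat.le_ceil (100 * r / (R : ℝ))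
      rw [hi] at this
      exact_mod_cast this
    have h5 : (i : ℝ) < 100 * r / R := by
      rw [← Nat.lt_ceil, hi]
      omega
    rw [div_le_iff₀ hR'] at h4
    rw [lt_div_iff₀ hR'] at h5
    exact (hcell i (by omega) r hr (by linarith) (by linarith)).1
  refine ⟨hκ', hR', hR1', ?_, hden, ?_⟩
  · have h1 : ((κ * R / (1 - R) : ℚ) : ℝ) ≤ ((18 / 25 : ℚ) : ℝ) := Rat.cast_le.2 hX
    push_cast at h1
    exact h1
  intro x hx hxR
  set h : ℝ → ℝ := fun r => eb r (κ * r / (1 - r)) (r ^ 2 / (R : ℝ) ^ 2) / r with hh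
  have hcont : ContinuousOn h (Icc x R) := cont hR' hR1' hx hden
  set a : ℕ → ℝ := fun j => max x (R * j / 100) with ha
  have ha0 : a 0 = x := by
    simp only [ha]
    rw [Nat.cast_zero, mul_zero, zero_div, max_eq_left hx.le]
  have ha100 : a 100 = R := by
    simp only [ha]
    rw [show ((100 : ℕ) : ℝ) = 100 by norm_num, mul_div_assoc, div_self (by norm_num), mul_one,
      max_eq_right hxR.le]
  have hamono : ∀ j, a j ≤ a (j + 1) := by
    intro j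
    simp only [ha]
    apply max_le_max le_rfl
    push_cast
    nlinarith
  have hax : ∀ j, x ≤ a j := fun j => le_max_left _ _
  have haR : ∀ j ≤ 100, a j ≤ R := by
    intro j hj
    simp only [ha]
    apply max_le hxR.le
    have : (j : ℝ) ≤ 100 := by exact_mod_cast hj
    nlinarith
  have hint : ∀ j < 100, IntervalIntegrable h volume (a j) (a (j + 1)) := by
    intro j hj
    apply ContinuousOn.intervalIntegrable
    rw [uIcc_of_le (hamono j)]
    exact hcont.mono (Icc_subset_Icc (hax j) (haR (j + 1) (by omega)))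
  have hsum := intervalIntegral.sum_integral_adjacent_intervals hint
  rw [ha0, ha100] at hsum
  rw [← hsum]
  have hterm : ∀ j ∈ Finset.range 100, ∫ r in a j..a (j + 1), h r ≤ cst κ R j * (R / 100) := by
    intro j hj
    rw [Finset.mem_range] at hj
    have hcj : (0 : ℝ) ≤ cst κ R j := by exact_mod_cast hc j hj
    rcases lt_or_ge (R * ((j : ℝ) + 1) / 100) x with h1 | h1
    · have e1 : a (j + 1) = x := by
        simp only [ha]
        push_cast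
        exact max_eq_left h1.le
      have e0 : a j = x := le_antisymm ((hamono j).trans e1.le) (hax j)
      rw [e0, e1, intervalIntegral.integral_same]
      positivity
    · have e1 : a (j + 1) = R * (j + 1) / 100 := by
        simp only [ha]
        push_cast
        exact max_eq_right h1
      have e0 : (R : ℝ) * j / 100 ≤ a j := le_max_right _ _
      have h2 : ∫ r in a j..a (j + 1), h r ≤ ∫ _ in a j..a (j + 1), (cst κ R j : ℝ) := by
        apply intervalIntegral.integral_mono_on (hamono j) (hint j hj)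
          intervalIntegrable_const
        intro r hr
        have h3 : 0 < r := lt_of_lt_of_le hx ((hax j).trans hr.1)
        exact (hcell j hj r h3 (e0.trans hr.1) (hr.2.trans e1.le)).2
      rw [intervalIntegral.integral_const, smul_eq_mul, mul_comm] at h2
      refine h2.trans (mul_le_mul_of_nonneg_left ?_ hcj)
      rw [e1]
      linarith
  refine (Finset.sum_le_sum hterm).trans ?_
  rw [← Finset.sum_mul]
  have h1 : ((S κ R 100 * (R / 100) : ℚ) : ℝ) ≤ (L : ℝ) := Rat.cast_le.2 hS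
  rw [S_eq] at h1
  push_cast at h1
  exact h1

theorem num1 : Good 8 (41 / 500) (19 / 500) := by
  have h := good_of 8 (41 / 500) (19 / 500) (by norm_num) (by norm_num) (by norm_num)
    (by norm_num) (by decide +kernel) (by decide +kernel) (by decide +kernel)
  norm_num at h
  exact h

theorem num2 : Good (71 / 10) (181 / 2000) (411 / 10000) := by
  have h := good_of (71 / 10) (181 / 2000) (411 / 10000) (by norm_num) (by norm_num)
    (by norm_num) (by norm_num) (by decide +kernel) (by decide +kernel) (by decide +kernel)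
  norm_num at h
  exact h

theorem num3 : Good (701 / 100) (91 / 1000) (203 / 5000) := by
  have h := good_of (701 / 100) (91 / 1000) (203 / 5000) (by norm_num) (by norm_num)
    (by norm_num) (by norm_num) (by decide +kernel) (by decide +kernel) (by decide +kernel)
  norm_num at h
  exact h

theorem num : NumStmt := ⟨num1, num2, num3⟩

end Pool.Agent.Lib.MP_7682a8_an.KB.H2
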